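import Pool.Agent.Lib.MP_c7af3c_ag.ELL.H21.Prop
import Pool.Agent.Lib.MP_c7af3c_ag.ELL.H30.Pbc
import Pool.Agent.Lib.MP_c7af3c_ag.ELL.H30.Pft
import Pool.Agent.Lib.MP_c7af3c_ag.ELL.H46.Grp
import Pool.Agent.Lib.MP_c7af3c_ag.ELL.H46.Mul
import Pool.Agent.Lib.MP_c7af3c_ag.ELL.H46.Tau
import Pool.Agent.Lib.MP_c7af3c_ag.ELL.H46.Ngl
import Pool.Agent.Lib.MP_c7af3c_ag.ELL.H46.Nah
import Pool.Agent.Lib.MP_c7af3c_ag.ELL.H46.Sprd
import Pool.Agent.Lib.MP_c7af3c_ag.ELL.H48.Inte
import Pool.Agent.Lib.MP_c7af3c_ag.ELL.H58.TdomB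
import Pool.Agent.Lib.MP_c7af3c_ag.ELL.H78.Sect
import Pool.Agent.Lib.MP_c7af3c_ag.ELL.H86.Line
import Pool.Agent.Lib.MP_c7af3c_ag.ELL.H86.Ptc
import Pool.Agent.Lib.MP_c7af3c_ag.ELL.H86.Pts
import Pool.Agent.Lib.MP_c7af3c_ag.ELL.H86.Proj
import Pool.Agent.Lib.MP_c7af3c_ag.ELL.H86.Inv
import Pool.Agent.Lib.MP_c7af3c_ag.ELL.H90.Mulc
import Pool.Agent.Lib.MP_c7af3c_ag.ELL.H94.EXTK

/-!
# MP_c7af3c_ag, project ELL: a closed subscheme of projective space which contains a line is
neither groupless nor arithmetically hyperbolic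
-/

set_option autoImplicit false

namespace Pool.Agent.Ell

open Pool.Agent.Lib.MP_c7af3c_ag.ELL

theorem prop : PropStatement := H21.prop H48.inte

theorem pts : PtsStatement := H86.pts H86.ptc H86.affm

theorem tau : TauStatement :=
  H46.tau H86.affm H48.inte prop H94.mor H86.ptc pts H90.mulc

theorem mul : MulStatement :=
  H46.mul H86.affm H48.inte prop H58.gred H94.extk H94.mor H86.ptc pts H90.mulc tau

theorem inv : InvStatement := H86.inv

/-- the elliptic curve is a group object -/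
theorem grp : GrpStatement := H46.grp H48.inte prop H58.gred H94.extk pts mul inv

theorem line : LineStatement := H86.line H86.ptc H86.affm pts H94.mor H48.inte

/-- a closed subscheme of projective space which contains a line is not groupless -/
theorem ngl : NglStatement := H46.ngl H48.inte prop grp line

/-- a closed subscheme of projective space which contains a line is not arithmetically
hyperbolic -/
theorem nah : NahStatement := H46.nah H30.pbc H30.pft H46.sprd H78.sect

end Pool.Agent.Ell
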