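import Pool.Agent.Lib.MP_c7af3c_ag.ELL.Ring

/-!
# MP_c7af3c_ag, project ELL: the elliptic curve `y² = x³ - x` as a scheme
Two copies of the affine curve, glued along `x ≠ 0` by the translation by the point `(0, 0)`.
-/

set_option autoImplicit false

namespace Pool.Agent.Ell

open AlgebraicGeometry CategoryTheory CategoryTheory.Limits

variable (k : Type) [Field k]

/-- the localization `B[1/x]` -/
abbrev Bx : Type := Localization.Away (bx k)

/-- the inverse of `x` -/
noncomputable def ux : Bx k := IsLocalization.Away.invSelf (bx k)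

theorem x_ux : algebraMap (B k) (Bx k) (bx k) * ux k = 1 :=
  IsLocalization.Away.mul_invSelf _

theorem onC_sg : OnC (-ux k) (algebraMap (B k) (Bx k) (by' k) * ux k ^ 2) := by
  have h1 := congrArg (algebraMap (B k) (Bx k)) (onC_b k)
  have h2 := x_ux k
  unfold OnC
  rw [map_pow, map_sub, map_pow] at h1
  generalize algebraMap (B k) (Bx k) (bx k) = x at *
  generalize algebraMap (B k) (Bx k) (by' k) = y at *
  generalize ux k = u at *
  have h3 : x ^ 3 * u ^ 4 = u := by
    have : x ^ 3 * u ^ 4 = (x * u) ^ 3 * u := by ring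
    rw [this, h2]; ring
  have h4 : x * u ^ 4 = u ^ 3 := by
    have : x * u ^ 4 = (x * u) * u ^ 3 := by ring
    rw [this, h2]; ring
  calc (y * u ^ 2) ^ 2 = y ^ 2 * u ^ 4 := by ring
    _ = (x ^ 3 - x) * u ^ 4 := by rw [h1]
    _ = x ^ 3 * u ^ 4 - x * u ^ 4 := by ring
    _ = (-u) ^ 3 - (-u) := by rw [h3, h4]; ring

/-- the translation by `(0, 0)`, `x ↦ -1/x`, `y ↦ y/x²` -/
noncomputable def sg : B k →ₐ[k] Bx k := bHom _ _ (onC_sg k)

theorem isUnit_sg : IsUnit (sg k (bx k)) := by
  unfold sg
  rw [bHom_bx]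
  refine IsUnit.neg (IsUnit.of_mul_eq_one (algebraMap (B k) (Bx k) (bx k)) ?_)
  rw [mul_comm]
  exact x_ux k

/-- the translation on `B[1/x]` -/
noncomputable def sg' : Bx k →ₐ[k] Bx k :=
  { IsLocalization.Away.lift (bx k) (g := (sg k : B k →+* Bx k)) (isUnit_sg k) with
    commutes' := fun r => by
      have h1 : algebraMap k (Bx k) r = algebraMap (B k) (Bx k) (algebraMap k (B k) r) := by
        rw [← IsScalarTower.algebraMap_apply]
      rw [h1]
      refine (IsLocalization.Away.lift_eq (bx k) (g := (sg k : B k →+* Bx k))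
        (isUnit_sg k) _).trans ?_
      change sg k _ = _
      rw [(sg k).commutes, ← h1] }

theorem sg'_algebraMap (b : B k) : sg' k (algebraMap (B k) (Bx k) b) = sg k b :=
  IsLocalization.Away.lift_eq (bx k) (g := (sg k : B k →+* Bx k)) (isUnit_sg k) b

theorem sg'_ux : sg' k (ux k) = - algebraMap (B k) (Bx k) (bx k) := by
  have h1 := congrArg (sg' k) (x_ux k)
  rw [map_mul, sg'_algebraMap, map_one] at h1
  unfold sg at h1
  rw [bHom_bx] at h1
  have h2 := x_ux k
  generalize algebraMap (B k) (Bx k) (bx k) = x at *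
  generalize sg' k (ux k) = s at *
  generalize ux k = u at *
  linear_combination (-x) * h1 - s * h2

theorem sg'_sg' : (sg' k).comp (sg' k) = AlgHom.id k (Bx k) := by
  have h0 : ((sg' k).comp (sg' k)).comp (IsScalarTower.toAlgHom k (B k) (Bx k)) =
      (AlgHom.id k (Bx k)).comp (IsScalarTower.toAlgHom k (B k) (Bx k)) := by
    refine bHom_ext ?_ ?_
    · change sg' k (sg' k (algebraMap (B k) (Bx k) (bx k))) =
        algebraMap (B k) (Bx k) (bx k)
      rw [sg'_algebraMap]
      unfold sg
      rw [bHom_bx, map_neg, sg'_ux, neg_neg]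
    · change sg' k (sg' k (algebraMap (B k) (Bx k) (by' k))) =
        algebraMap (B k) (Bx k) (by' k)
      rw [sg'_algebraMap]
      unfold sg
      rw [bHom_by, map_mul, map_pow, sg'_ux, sg'_algebraMap]
      unfold sg
      rw [bHom_by]
      have h2 := x_ux k
      generalize algebraMap (B k) (Bx k) (bx k) = x at *
      generalize algebraMap (B k) (Bx k) (by' k) = y at *
      generalize ux k = u at *
      have : y * u ^ 2 * (-x) ^ 2 = y * (x * u) ^ 2 := by ring
      rw [this, h2]
      ring
  refine AlgHom.coe_ringHom_injective (IsLocalization.ringHom_ext (Submonoid.powers (bx k)) ?_)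
  exact congrArg (fun f : B k →ₐ[k] Bx k => (f : B k →+* Bx k)) h0

/-- the affine curve -/
noncomputable abbrev Cv : Scheme := Spec (CommRingCat.of (B k))

/-- the open subset `x ≠ 0` -/
noncomputable abbrev Vv : Scheme := Spec (CommRingCat.of (Bx k))

/-- the inclusion -/
noncomputable def jj : Vv k ⟶ Cv k := Spec.map (CommRingCat.ofHom (algebraMap (B k) (Bx k)))

/-- the inclusion composed with the translation -/
noncomputable def jt : Vv k ⟶ Cv k := Spec.map (CommRingCat.ofHom (sg k : B k →+* Bx k))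

/-- the translation on `x ≠ 0` -/
noncomputable def tt : Vv k ⟶ Vv k := Spec.map (CommRingCat.ofHom (sg' k : Bx k →+* Bx k))

theorem tt_tt : tt k ≫ tt k = 𝟙 _ := by
  unfold tt
  rw [← Spec.map_comp, ← CommRingCat.ofHom_comp]
  have h1 : ((sg' k : Bx k →+* Bx k).comp (sg' k : Bx k →+* Bx k)) = RingHom.id (Bx k) :=
    congrArg (fun f : Bx k →ₐ[k] Bx k => (f : Bx k →+* Bx k)) (sg'_sg' k)
  rw [h1]
  exact Spec.map_id _

theorem tt_jj : tt k ≫ jj k = jt k := by
  unfold tt jj jt
  rw [← Spec.map_comp, ← CommRingCat.ofHom_comp]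
  have h1 : (sg' k : Bx k →+* Bx k).comp (algebraMap (B k) (Bx k)) = (sg k : B k →+* Bx k) :=
    RingHom.ext fun b => sg'_algebraMap k b
  rw [h1]

theorem tt_jt : tt k ≫ jt k = jj k := by
  rw [← tt_jj, ← Category.assoc, tt_tt, Category.id_comp]

instance : IsIso (tt k) := ⟨tt k, tt_tt k, tt_tt k⟩

instance : IsOpenImmersion (jj k) :=
  inferInstanceAs (IsOpenImmersion (Spec.map (CommRingCat.ofHom
    (algebraMap (B k) (Localization.Away (bx k))))))

instance : IsOpenImmersion (jt k) := by
  rw [← tt_jj]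
  infer_instance

instance (i j : WalkingSpan) (f : i ⟶ j) : IsOpenImmersion ((span (jj k) (jt k)).map f) := by
  rcases f with _ | f
  · change IsOpenImmersion ((span (jj k) (jt k)).map (𝟙 _))
    rw [(span (jj k) (jt k)).map_id]
    infer_instance
  · cases f
    · exact inferInstanceAs (IsOpenImmersion (jj k))
    · exact inferInstanceAs (IsOpenImmersion (jt k))

instance : HasPushout (jj k) (jt k) :=
  inferInstanceAs (HasColimit (span (jj k) (jt k)))

/-- the elliptic curve -/
noncomputable def El : Scheme := pushout (jj k) (jt k)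

/-- the first chart -/
noncomputable def j0 : Cv k ⟶ El k := pushout.inl (jj k) (jt k)

/-- the second chart: the first chart composed with the translation by `(0, 0)` -/
noncomputable def j1 : Cv k ⟶ El k := pushout.inr (jj k) (jt k)

theorem glue : jj k ≫ j0 k = jt k ≫ j1 k := pushout.condition

theorem glue' : jj k ≫ j1 k = jt k ≫ j0 k := by
  rw [← tt_jt k, Category.assoc, ← glue, ← Category.assoc, tt_jj]

instance : IsOpenImmersion (j0 k) :=
  inferInstanceAs (IsOpenImmersion (colimit.ι (span (jj k) (jt k)) WalkingSpan.left))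

instance : IsOpenImmersion (j1 k) :=
  inferInstanceAs (IsOpenImmersion (colimit.ι (span (jj k) (jt k)) WalkingSpan.right))

/-- the structure morphism of the affine curve -/
noncomputable def sC : Cv k ⟶ Spec (CommRingCat.of k) :=
  Spec.map (CommRingCat.ofHom (algebraMap k (B k)))

theorem jj_sC : jj k ≫ sC k = Spec.map (CommRingCat.ofHom (algebraMap k (Bx k))) := by
  unfold jj sC
  rw [← Spec.map_comp, ← CommRingCat.ofHom_comp, ← IsScalarTower.algebraMap_eq]

theorem jt_sC : jt k ≫ sC k = Spec.map (CommRingCat.ofHom (algebraMap k (Bx k))) := by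
  unfold jt sC
  rw [← Spec.map_comp, ← CommRingCat.ofHom_comp]
  congr 2
  ext b
  exact (sg k).commutes b

/-- the structure morphism -/
noncomputable def sE : El k ⟶ Spec (CommRingCat.of k) :=
  pushout.desc (sC k) (sC k) (by rw [jj_sC, jt_sC])

@[reassoc (attr := simp)] theorem j0_sE : j0 k ≫ sE k = sC k := pushout.inl_desc _ _ _

@[reassoc (attr := simp)] theorem j1_sE : j1 k ≫ sE k = sC k := pushout.inr_desc _ _ _

/-- the elliptic curve over `k` -/
noncomputable def EE : Over (Spec (CommRingCat.of k)) := Over.mk (sE k)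

theorem j_surj (x : El k) : (∃ y : Cv k, j0 k y = x) ∨ ∃ y : Cv k, j1 k y = x := by
  obtain ⟨i, y, h⟩ := Scheme.IsLocallyDirected.ι_jointly_surjective (span (jj k) (jt k)) x
  rcases i with _ | _ | _
  · left
    refine ⟨jj k y, ?_⟩
    rw [← h, ← colimit.w (span (jj k) (jt k)) WalkingSpan.Hom.fst]
    rfl
  · exact Or.inl ⟨y, h⟩
  · exact Or.inr ⟨y, h⟩

theorem j0_eq_j1 (y y' : Cv k) (h : j0 k y = j1 k y') : ∃ z : Vv k, jj k z = y ∧ jt k z = y' := by
  obtain ⟨l, fi, fj, z, h1, h2⟩ := (Scheme.IsLocallyDirected.ι_eq_ι_iff (span (jj k) (jt k))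
    (i := WalkingSpan.left) (j := WalkingSpan.right) (xi := y) (xj := y')).1 h
  rcases l with _ | _ | _
  · refine ⟨z, ?_, ?_⟩
    · rw [← h1]
      rcases fi with _ | _
      rfl
    · rw [← h2]
      rcases fj with _ | _
      rfl
  · rcases fj with _ | _
  · rcases fi with _ | _

end Pool.Agent.Ell
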