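import Pool.Agent.Lib.MP_c7af3c_ag.ELL.Defs
import Pool.Agent.Lib.MP_c7af3c_ag.GEN.Groups

/-!
# MP_c7af3c_ag, project ELL: module statements
Paper: ELL/Paper.md
-/

set_option autoImplicit false

namespace Pool.Agent.Ell

open AlgebraicGeometry CategoryTheory CategoryTheory.Limits MonoidalCategory
  CartesianMonoidalCategory MonObj
open scoped TensorProduct
open MvPolynomial (homogeneousSubmodule)

/-- the point -/
noncomputable abbrev PT (k : Type) [Field k] : Over (Spec (CommRingCat.of k)) :=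
  Over.mk (𝟙 (Spec (CommRingCat.of k)))

/-- the affine curve over `k` -/
noncomputable def CC (k : Type) [Field k] : Over (Spec (CommRingCat.of k)) := Over.mk (sC k)

/-- the charts over `k` -/
noncomputable def J0 (k : Type) [Field k] : CC k ⟶ EE k := Over.homMk (j0 k) (j0_sE k)
noncomputable def J1 (k : Type) [Field k] : CC k ⟶ EE k := Over.homMk (j1 k) (j1_sE k)

/-- the morphism to the affine curve given by two functions -/
noncomputable def morC {k A : Type} [Field k] [CommRing A] [Algebra k A] (a b : A)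
    (h : OnC a b) : Over.mk (Spec.map (CommRingCat.ofHom (algebraMap k A))) ⟶ CC k :=
  Over.homMk (Spec.map (CommRingCat.ofHom (bHom (R := k) a b h : B k →+* A))) (by
    change Spec.map _ ≫ Spec.map _ = Spec.map _
    rw [← Spec.map_comp, ← CommRingCat.ofHom_comp, AlgHom.comp_algebraMap])

/-- the points of the affine curve -/
noncomputable def ptC {k : Type} [Field k] (a b : k) (h : OnC a b) : PT k ⟶ CC k :=
  Over.homMk (Spec.map (CommRingCat.ofHom (bHom (R := k) a b h : B k →+* k))) (by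
    change Spec.map _ ≫ Spec.map _ = 𝟙 _
    rw [← Spec.map_comp, ← CommRingCat.ofHom_comp, AlgHom.comp_algebraMap]
    exact Spec.map_id _)

/-- the affine points in Mathlib's group; `0` if the point is singular (this does not happen) -/
noncomputable def aff {k : Type} [Field k] (a b : k) : (W k).Point := by
  classical
  exact if h : (W k).Nonsingular a b then .some a b h else 0

/-- the points of the elliptic curve -/
noncomputable def ptE {k : Type} [Field k] : (W k).Point → (PT k ⟶ EE k)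
  | .zero => ptC (0 : k) 0 (by simp [OnC]) ≫ J1 k
  | .some a b h => ptC a b (by
      have := h.1
      rw [WeierstrassCurve.Affine.equation_iff] at this
      unfold OnC
      linear_combination this) ≫ J0 k

/-! ### Modules -/

/-- Module TDOM -/
def TdomStatement : Prop := ∀ (k A : Type) [Field k] [CommRing A] [IsDomain A] [Algebra k A],
  IsDomain (A ⊗[k] B k)

/-- Module EXTK: equality of morphisms on `k`-points -/
def ExtkStatement : Prop := ∀ (k : Type) [Field k] [IsAlgClosed k]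
  (X Y : Over (Spec (CommRingCat.of k))) [IsReduced X.left] [LocallyOfFiniteType X.hom]
  [IsSeparated Y.hom] [LocallyOfFiniteType Y.hom] (f g : X ⟶ Y),
  (∀ p : PT k ⟶ X, p ≫ f = p ≫ g) → f = g

/-- Module MOR: a map on `k`-points which is locally a morphism is a morphism -/
def MorStatement : Prop := ∀ (k : Type) [Field k] [IsAlgClosed k]
  (X Y : Over (Spec (CommRingCat.of k))) [IsReduced X.left] [LocallyOfFiniteType X.hom]
  [IsSeparated Y.hom] [LocallyOfFiniteType Y.hom]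
  (I : Type) (U : I → Over (Spec (CommRingCat.of k))) (u : ∀ i, U i ⟶ X)
  (_ : ∀ i, IsOpenImmersion (u i).left) (f : ∀ i, U i ⟶ Y)
  (_ : ∀ p : PT k ⟶ X, ∃ i, ∃ q : PT k ⟶ U i, q ≫ u i = p)
  (φ : (PT k ⟶ X) → (PT k ⟶ Y)) (_ : ∀ i (q : PT k ⟶ U i), q ≫ f i = φ (q ≫ u i)),
  ∃ F : X ⟶ Y, ∀ p, p ≫ F = φ p

/-- Module INTE -/
def InteStatement : Prop := ∀ (k : Type) [Field k], IsIntegral (El k) ∧
  LocallyOfFiniteType (sE k) ∧ QuasiCompact (sE k)

/-- Module GRED (uses TDOM) -/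
def GredStatement : Prop := ∀ (k : Type) [Field k],
  IsReduced (EE k ⊗ EE k).left ∧ IsReduced ((EE k ⊗ EE k) ⊗ EE k).left

/-- Module PROP: the valuative criterion -/
def PropStatement : Prop := ∀ (k : Type) [Field k], IsProper (sE k)

/-- Module PTC: the points of the affine curve -/
def PtcStatement : Prop := ∀ (k : Type) [Field k] (p : PT k ⟶ CC k),
  ∃ (a b : k) (h : OnC a b), p = ptC a b h

/-- Module AFF: the nonsingular affine points -/
def AffStatement : Prop := ∀ (k : Type) [Field k] [CharZero k] (a b : k) (_ : OnC a b),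
  ∃ h' : (W k).Nonsingular a b, aff a b = .some a b h'

/-- Module PTS: the points of the elliptic curve -/
def PtsStatement : Prop := ∀ (k : Type) [Field k] [CharZero k] [DecidableEq k],
  Function.Bijective (ptE (k := k)) ∧
  (∀ (a b : k) (h : OnC a b), ptC a b h ≫ J0 k = ptE (aff a b)) ∧
  (∀ (a b : k) (h : OnC a b), ptC a b h ≫ J1 k = ptE (aff a b + aff 0 0))

/-- Module SUMA: the sum of two affine points -/
def SumaStatement : Prop :=
  (∀ (A : Type) [CommRing A] (x₁ y₁ x₂ y₂ l : A), OnC x₁ y₁ → OnC x₂ y₂ →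
    l * (x₁ - x₂) = y₁ - y₂ → l * (y₁ + y₂) = x₁ ^ 2 + x₁ * x₂ + x₂ ^ 2 - 1 →
    OnC (l ^ 2 - x₁ - x₂) (-(l * (l ^ 2 - x₁ - x₂ - x₁) + y₁))) ∧
  (∀ (k : Type) [Field k] [CharZero k] [DecidableEq k] (x₁ y₁ x₂ y₂ l : k), OnC x₁ y₁ →
    OnC x₂ y₂ → l * (x₁ - x₂) = y₁ - y₂ → l * (y₁ + y₂) = x₁ ^ 2 + x₁ * x₂ + x₂ ^ 2 - 1 →
    (x₁ ≠ x₂ ∨ y₁ + y₂ ≠ 0) →
    aff x₁ y₁ + aff x₂ y₂ = aff (l ^ 2 - x₁ - x₂) (-(l * (l ^ 2 - x₁ - x₂ - x₁) + y₁))) ∧
  (∀ (k : Type) [Field k] [CharZero k] [DecidableEq k] (x₁ y₁ x₂ y₂ : k), OnC x₁ y₁ →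
    OnC x₂ y₂ → aff x₁ y₁ + aff x₂ y₂ ≠ 0 → (x₁ ≠ x₂ ∨ y₁ + y₂ ≠ 0))

/-- Module MULC: the addition of affine points is locally a morphism -/
def MulcStatement : Prop := ∀ (k : Type) [Field k] [CharZero k] [DecidableEq k],
  ∃ (U : Fin 2 → Over (Spec (CommRingCat.of k))) (u : ∀ i, U i ⟶ CC k ⊗ CC k)
    (f : ∀ i, U i ⟶ CC k), (∀ i, IsOpenImmersion (u i).left) ∧
    (∀ i (q : PT k ⟶ U i) (a b : k) (h : OnC a b) (a' b' : k) (h' : OnC a' b'),
      q ≫ u i ≫ fst _ _ = ptC a b h → q ≫ u i ≫ snd _ _ = ptC a' b' h' →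
      ∃ (e g : k) (h'' : OnC e g), q ≫ f i = ptC e g h'' ∧ aff a b + aff a' b' = aff e g) ∧
    ∀ (a b : k) (h : OnC a b) (a' b' : k) (h' : OnC a' b'), aff a b + aff a' b' ≠ 0 →
      ∃ i, ∃ q : PT k ⟶ U i, q ≫ u i = lift (ptC a b h) (ptC a' b' h')

/-- Module TAU: the translations -/
def TauStatement : Prop := ∀ (k : Type) [Field k] [IsAlgClosed k] [CharZero k] [DecidableEq k]
  (R : (W k).Point), ∃ τ : EE k ⟶ EE k, ∀ P, ptE P ≫ τ = ptE (P + R)

/-- Module MUL: the addition -/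
def MulStatement : Prop := ∀ (k : Type) [Field k] [IsAlgClosed k] [CharZero k] [DecidableEq k],
  ∃ m : EE k ⊗ EE k ⟶ EE k, ∀ P Q, lift (ptE P) (ptE Q) ≫ m = ptE (P + Q)

/-- Module INV: the inverse -/
def InvStatement : Prop := ∀ (k : Type) [Field k] [CharZero k] [DecidableEq k],
  ∃ i : EE k ⟶ EE k, ∀ P, ptE P ≫ i = ptE (-P)

/-- Module GRP: the group structure (uses EXTK, GRED, INTE, PROP, PTS, MUL, INV) -/
def GrpStatement : Prop := ∀ (k : Type) [Field k] [IsAlgClosed k] [CharZero k],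
  Nonempty (GrpObj (EE k))

/-- Module PROJ: the morphisms of affine schemes to a chart of projective space. -/
def ProjStatement : Prop := ∀ (k : Type) [Field k] (n : ℕ)
  [GradedAlgebra (homogeneousSubmodule (Fin (n + 1)) k)] (A : Type) [CommRing A] [Algebra k A]
  (j : Fin (n + 1)) (z : Fin (n + 1) → A), z j = 1 →
  ∃ g : Spec (CommRingCat.of A) ⟶ Proj (homogeneousSubmodule (Fin (n + 1)) k),
    g ≫ Gen.projStr k n = Spec.map (CommRingCat.ofHom (algebraMap k A)) ∧
    ∀ (f : A →ₐ[k] k), ∃ h : ⊤ ≤ (Spec.map (CommRingCat.ofHom (f : A →+* k)) ≫ g) ⁻¹ᵁ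
      Proj.basicOpen (homogeneousSubmodule (Fin (n + 1)) k) (MvPolynomial.X j),
      Gen.pcoord k n j (Spec.map (CommRingCat.ofHom (f : A →+* k)) ≫ g) h = fun l => f (z l)

/-- Module LINE (uses MOR, PROJ, PTS, INTE): a nonconstant morphism to the line through `a`, `b`
in projective space -/
def LineStatement : Prop := ∀ (k : Type) [Field k] [IsAlgClosed k] [CharZero k] (n : ℕ)
  [GradedAlgebra (homogeneousSubmodule (Fin (n + 1)) k)] (a b : Fin (n + 1) → k),
  LinearIndependent k ![a, b] →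
  ∃ g : EE k ⟶ Over.mk (Gen.projStr k n),
    (∃ P Q : PT k ⟶ EE k, P ≫ g ≠ Q ≫ g) ∧
    ∀ (P : PT k ⟶ EE k) (j : Fin (n + 1)) (h : ⊤ ≤ (P ≫ g).left ⁻¹ᵁ
      Proj.basicOpen (homogeneousSubmodule (Fin (n + 1)) k) (MvPolynomial.X j)),
      ∃ s t : k, Gen.pcoord k n j (P ≫ g).left h = fun l => s * a l + t * b l

end Pool.Agent.Ell
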