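import Pool.Agent.Lib.MP_c7af3c_ag.ELL.Iface
import Mathlib.AlgebraicGeometry.ProjectiveSpectrum.Functor

/-!
# MP_c7af3c_ag, project ELL, second part: models of closed subschemes of projective space
(statements). Purpose: a projective scheme containing a line is not arithmetically hyperbolic.
-/

set_option autoImplicit false

namespace Pool.Agent.Ell

open AlgebraicGeometry CategoryTheory CategoryTheory.Limits
open MvPolynomial (homogeneousSubmodule)

section

attribute [local instance] MvPolynomial.gradedAlgebra

/-- projective space over a ring -/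
noncomputable abbrev PP (A : Type) [CommRing A] (n : ℕ) : Scheme.{0} :=
  Proj (homogeneousSubmodule (Fin (n + 1)) A)

/-- the structure morphism -/
noncomputable abbrev strP (A : Type) [CommRing A] (n : ℕ) : PP A n ⟶ Spec (CommRingCat.of A) :=
  Proj.toSpecZero (homogeneousSubmodule (Fin (n + 1)) A) ≫
    Spec.map (CommRingCat.ofHom (algebraMap A (homogeneousSubmodule (Fin (n + 1)) A 0)))

/-- the standard open subset -/
noncomputable abbrev DP (A : Type) [CommRing A] (n : ℕ) (j : Fin (n + 1)) : (PP A n).Opens :=
  Proj.basicOpen (homogeneousSubmodule (Fin (n + 1)) A) (MvPolynomial.X j)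

/-- change of the base ring, on polynomials -/
noncomputable def gmap {A B : Type} [CommRing A] [CommRing B] (f : A →+* B) (n : ℕ) :
    GradedRingHom (homogeneousSubmodule (Fin (n + 1)) A) (homogeneousSubmodule (Fin (n + 1)) B) where
  __ := MvPolynomial.map f
  map_mem := fun {i x} hx => by
    rw [MvPolynomial.mem_homogeneousSubmodule] at hx ⊢
    exact hx.map f

theorem gmap_irr {A B : Type} [CommRing A] [CommRing B] (f : A →+* B) (n : ℕ) :
    HomogeneousIdeal.irrelevant (homogeneousSubmodule (Fin (n + 1)) B) ≤
      (HomogeneousIdeal.irrelevant (homogeneousSubmodule (Fin (n + 1)) A)).map (gmap f n) := by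
  have key : ∀ j : Fin (n + 1), (MvPolynomial.X j : MvPolynomial (Fin (n + 1)) B) ∈
      (HomogeneousIdeal.irrelevant (homogeneousSubmodule (Fin (n + 1)) A)).map (gmap f n) := by
    intro j
    have h1 : (MvPolynomial.X j : MvPolynomial (Fin (n + 1)) A) ∈
        HomogeneousIdeal.irrelevant (homogeneousSubmodule (Fin (n + 1)) A) :=
      HomogeneousIdeal.mem_irrelevant_of_mem _ Nat.one_pos
        ((MvPolynomial.mem_homogeneousSubmodule 1 _).2 (MvPolynomial.isHomogeneous_X A j))
    have h2 : gmap f n (MvPolynomial.X j : MvPolynomial (Fin (n + 1)) A) =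
        (MvPolynomial.X j : MvPolynomial (Fin (n + 1)) B) := MvPolynomial.map_X f j
    rw [← h2]
    exact Ideal.mem_map_of_mem (gmap f n) h1
  have h3 : ∀ i > 0, ∀ x ∈ homogeneousSubmodule (Fin (n + 1)) B i,
      x ∈ ((HomogeneousIdeal.irrelevant (homogeneousSubmodule (Fin (n + 1)) A)).map
        (gmap f n)).toIdeal := by
    intro i hi x hx
    rw [MvPolynomial.mem_homogeneousSubmodule] at hx
    rw [MvPolynomial.as_sum x]
    refine Ideal.sum_mem _ fun I hI => ?_
    have hI0 : I ≠ 0 := by
      rintro rfl
      have h4 := hx (MvPolynomial.mem_support_iff.1 hI)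
      simp at h4
      omega
    obtain ⟨j, hj⟩ : ∃ j, I j ≠ 0 := by
      by_contra hcon
      push Not at hcon
      exact hI0 (Finsupp.ext hcon)
    have h5 : MvPolynomial.monomial I (MvPolynomial.coeff I x) =
        MvPolynomial.monomial (I - Finsupp.single j 1) (MvPolynomial.coeff I x) *
          MvPolynomial.X j := by
      rw [MvPolynomial.X, MvPolynomial.monomial_mul, mul_one, tsub_add_cancel_of_le]
      rw [Finsupp.single_le_iff]
      exact Nat.one_le_iff_ne_zero.2 hj
    rw [h5]
    exact Ideal.mul_mem_left _ _ (key j)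
  intro x hx
  exact (HomogeneousIdeal.toIdeal_irrelevant_le _).2 h3 hx

/-- change of the base ring, on projective spaces -/
noncomputable def prP {A B : Type} [CommRing A] [CommRing B] (f : A →+* B) (n : ℕ) :
    PP B n ⟶ PP A n := Proj.map (gmap f n) (gmap_irr f n)

/-- Module PBC: projective space commutes with base change. -/
def PbcStatement : Prop := ∀ (A B : Type) [CommRing A] [CommRing B] (f : A →+* B) (n : ℕ),
  IsPullback (prP f n) (strP B n) (strP A n) (Spec.map (CommRingCat.ofHom f))

/-- Module PFT: the structure morphism is separated and of finite type. -/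
def PftStatement : Prop := ∀ (A : Type) [CommRing A] (n : ℕ),
  IsSeparated (strP A n) ∧ LocallyOfFiniteType (strP A n) ∧ QuasiCompact (strP A n)

/-- Module SPRD: a closed subscheme of projective space over a field is the base change of its
image in projective space over `R`, for every sufficiently large subring `R`. -/
def SprdStatement : Prop := ∀ (k : Type) [Field k] (n : ℕ) (Y : Scheme.{0}) (i : Y ⟶ PP k n)
  (_ : IsClosedImmersion i), ∃ S : Set k, S.Finite ∧ ∀ R : Subring k, S ⊆ R →
    IsPullback i (i ≫ prP R.subtype n).toImage (prP R.subtype n) (i ≫ prP R.subtype n).imageι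

/-- Module SECT: the sections of projective space over a subring given by vectors with a
coordinate `1`. -/
def SectStatement : Prop := ∀ (k : Type) [Field k] (n : ℕ) (R : Subring k) (j : Fin (n + 1))
  (v : Fin (n + 1) → R), v j = 1 →
  ∃ (s : Spec (CommRingCat.of R) ⟶ PP R n) (p : Spec (CommRingCat.of k) ⟶ PP k n)
    (h : ⊤ ≤ p ⁻¹ᵁ DP k n j), s ≫ strP R n = 𝟙 _ ∧ p ≫ Gen.projStr k n = 𝟙 _ ∧
    Spec.map (CommRingCat.ofHom R.subtype) ≫ s = p ≫ prP R.subtype n ∧
    Gen.pcoord k n j p h = fun l => (v l : k)

/-- Module NAH (uses PBC, PFT, SPRD, SECT): a closed subscheme of projective space which contains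
a line is not arithmetically hyperbolic. -/
def NahStatement : Prop := ∀ (k : Type) [Field k] [IsAlgClosed k] [CharZero k] (n : ℕ)
  (Y : Over (Spec (CommRingCat.of k))) (i : Y.left ⟶ PP k n) (_ : IsClosedImmersion i)
  (_ : i ≫ Gen.projStr k n = Y.hom) (a b : Fin (n + 1) → k) (_ : LinearIndependent k ![a, b])
  (_ : ∀ g : MvPolynomial (Fin (n + 1)) k, (∃ e, g.IsHomogeneous e) →
    (∀ y : Y.left, g ∈ (i.base y).asHomogeneousIdeal) →
    ∀ s t : k, MvPolynomial.eval (fun l => s * a l + t * b l) g = 0),
  ¬ Gen.IsAH k Y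

/-- Module NGL (uses GRP, LINE, PROP, INTE): a closed subscheme of projective space which contains
a line is not groupless. -/
def NglStatement : Prop := ∀ (k : Type) [Field k] [IsAlgClosed k] [CharZero k] (n : ℕ)
  (Y : Over (Spec (CommRingCat.of k))) (i : Y.left ⟶ PP k n) (_ : IsClosedImmersion i)
  (_ : i ≫ Gen.projStr k n = Y.hom) (a b : Fin (n + 1) → k) (_ : LinearIndependent k ![a, b])
  (_ : ∀ g : MvPolynomial (Fin (n + 1)) k, (∃ e, g.IsHomogeneous e) →
    (∀ y : Y.left, g ∈ (i.base y).asHomogeneousIdeal) →
    ∀ s t : k, MvPolynomial.eval (fun l => s * a l + t * b l) g = 0),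
  ¬ Gen.IsGL k Y

end

end Pool.Agent.Ell
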