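import Mathlib

/-!
# MP_c7af3c_ag, project ELL: the coordinate ring of `y² = x³ - x`
-/

set_option autoImplicit false

namespace Pool.Agent.Ell

open Polynomial

/-- the curve `y² = x³ - x` -/
noncomputable abbrev W (R : Type) [CommRing R] : WeierstrassCurve.Affine R :=
  ⟨0, 0, 0, -1, 0⟩

/-- the coordinate ring of the affine curve -/
abbrev B (R : Type) [CommRing R] : Type := (W R).CoordinateRing

/-- the equation -/
def OnC {A : Type} [CommRing A] (a b : A) : Prop := b ^ 2 = a ^ 3 - a

section

variable (R : Type) [CommRing R]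

/-- the coordinate `x` -/
noncomputable def bx : B R := WeierstrassCurve.Affine.CoordinateRing.mk (W R) (C X)

/-- the coordinate `y` -/
noncomputable def by' : B R := WeierstrassCurve.Affine.CoordinateRing.mk (W R) X

theorem onC_b : OnC (bx R) (by' R) := by
  unfold OnC bx by'
  rw [← sub_eq_zero, ← map_pow, ← map_pow, ← map_sub, ← map_sub, ← C_pow]
  have h : (X ^ 2 - (C (X ^ 3) - C X) : R[X][X]) = (W R).polynomial := by
    rw [WeierstrassCurve.Affine.polynomial]
    simp
    ring
  rw [h]
  exact AdjoinRoot.mk_self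

variable {R} {A : Type} [CommRing A] [Algebra R A]

theorem eval_W (a b : A) (h : OnC a b) :
    eval₂ (aeval a : R[X] →ₐ[R] A).toRingHom b (W R).polynomial = 0 := by
  rw [WeierstrassCurve.Affine.polynomial]
  unfold OnC at h
  change eval₂RingHom (aeval a : R[X] →ₐ[R] A).toRingHom b _ = 0
  simp only [map_sub, map_add, map_mul, map_pow, coe_eval₂RingHom, eval₂_X, eval₂_C]
  simp
  linear_combination h

/-- the homomorphism given by a point -/
noncomputable def bHom (a b : A) (h : OnC a b) : B R →ₐ[R] A :=
  { AdjoinRoot.lift (aeval a : R[X] →ₐ[R] A).toRingHom b (eval_W a b h) with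
    commutes' := fun r => by
      have h1 : algebraMap R (B R) r = AdjoinRoot.of _ (C r) := rfl
      rw [h1]
      change AdjoinRoot.lift _ _ _ _ = _
      rw [AdjoinRoot.lift_of]
      simp }

@[simp] theorem bHom_bx (a b : A) (h : OnC a b) : bHom (R := R) a b h (bx R) = a := by
  change AdjoinRoot.lift _ _ (eval_W a b h) (AdjoinRoot.mk _ (C X)) = _
  rw [AdjoinRoot.lift_mk]
  simp

@[simp] theorem bHom_by (a b : A) (h : OnC a b) : bHom (R := R) a b h (by' R) = b := by
  change AdjoinRoot.lift _ _ (eval_W a b h) (AdjoinRoot.mk _ X) = _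
  rw [AdjoinRoot.lift_mk]
  simp

theorem bHom_ext {f g : B R →ₐ[R] A} (hx : f (bx R) = g (bx R)) (hy : f (by' R) = g (by' R)) :
    f = g := by
  have hx' : f (AdjoinRoot.of _ X) = g (AdjoinRoot.of _ X) := hx
  have hy' : f (AdjoinRoot.root _) = g (AdjoinRoot.root _) := hy
  have h1 : (f : B R →+* A) = g := by
    refine AdjoinRoot.ringHom_ext ?_ hy'
    refine Polynomial.ringHom_ext (fun r => ?_) hx'
    change f (algebraMap R (B R) r) = g (algebraMap R (B R) r)
    rw [f.commutes, g.commutes]
  exact AlgHom.coe_ringHom_injective h1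

theorem bHom_self {f : B R →ₐ[R] A} : f = bHom (f (bx R)) (f (by' R)) (by
    have := congrArg f (onC_b R)
    simpa [OnC] using this) := by
  refine bHom_ext ?_ ?_
  · rw [bHom_bx]
  · rw [bHom_by]

end

theorem isDomain_B (R : Type) [CommRing R] [IsDomain R] : IsDomain (B R) := inferInstance

instance finiteType_B (R : Type) [CommRing R] : Algebra.FiniteType R (B R) := by
  have h1 : Algebra.FiniteType R[X] (B R) :=
    Algebra.FiniteType.of_surjective (AdjoinRoot.mkₐ (W R).polynomial) 
      (AdjoinRoot.mk_surjective)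
  exact Algebra.FiniteType.trans (inferInstanceAs (Algebra.FiniteType R R[X])) h1

end Pool.Agent.Ell
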